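import Pool.Agent.N984.QX.Stm2
import Pool.Agent.N986.QX.RED

/-!
# Project QX (helper984): leaf SUBM (helper94)

Subsets of maximally mixed sets are maximally mixed.
-/

set_option autoImplicit false

namespace Pool.Agent.N94.QX

open Pool.Agent.N984.QX
open Pool.Agent.N986.QX

lemma mg_mg_self {n : ℕ} (Y : Finset (Fin n)) (w z : Fin n → ZMod 2) :
    mg Y (mg Y w z) (mg Y z w) = w := by
  funext i
  unfold mg
  by_cases h : i ∈ Y
  · simp only [h, if_true]
  · simp only [h, if_false]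

/-- exchange of the parts outside `Y` -/
def swp {n : ℕ} (Y : Finset (Fin n)) :
    ((Fin n → ZMod 2) × (Fin n → ZMod 2)) ≃ ((Fin n → ZMod 2) × (Fin n → ZMod 2)) where
  toFun p := (mg Y p.1 p.2, mg Y p.2 p.1)
  invFun p := (mg Y p.1 p.2, mg Y p.2 p.1)
  left_inv p := Prod.ext (mg_mg_self Y p.1 p.2) (mg_mg_self Y p.2 p.1)
  right_inv p := Prod.ext (mg_mg_self Y p.1 p.2) (mg_mg_self Y p.2 p.1)

lemma sum_mg {n : ℕ} (Y : Finset (Fin n)) (f : (Fin n → ZMod 2) → ℂ) :
    ∑ w, ∑ z, f (mg Y w z) = (Fintype.card (Fin n → ZMod 2) : ℂ) * ∑ w, f w := by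
  have h1 : ∑ w : Fin n → ZMod 2, ∑ z : Fin n → ZMod 2, f (mg Y w z) =
      ∑ p : (Fin n → ZMod 2) × (Fin n → ZMod 2), f (swp Y p).1 :=
    (Fintype.sum_prod_type' (fun w z : Fin n → ZMod 2 => f (mg Y w z))).symm
  rw [h1, Equiv.sum_comp (swp Y) (fun p => f p.1), Fintype.sum_prod_type, Finset.mul_sum]
  refine Finset.sum_congr rfl fun w _ => ?_
  show ∑ _z : Fin n → ZMod 2, f w = _
  rw [Finset.sum_const, Finset.card_univ, nsmul_eq_mul]

lemma mg_sub {n : ℕ} {X Y : Finset (Fin n)} (h : X ⊆ Y) (x w z : Fin n → ZMod 2) :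
    mg X x (mg Y w z) = mg Y (mg X x w) z := by
  funext i
  unfold mg
  by_cases hX : i ∈ X
  · simp only [hX, h hX, if_true]
  · by_cases hY : i ∈ Y
    · simp only [hX, hY, if_true, if_false]
    · simp only [hX, hY, if_false]

theorem t_SUBM : S_SUBM := by
  classical
  intro n ψ X Y hXY hY
  rw [mm_iff'] at hY ⊢
  intro x y
  have hc : (Fintype.card (Fin n → ZMod 2) : ℂ) ≠ 0 := Nat.cast_ne_zero.2 Fintype.card_ne_zero
  have e1 := sum_mg Y (fun z => ψ (mg X x z) * star (ψ (mg X y z)))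
  have e2 : ∀ w : Fin n → ZMod 2,
      ∑ z, ψ (mg X x (mg Y w z)) * star (ψ (mg X y (mg Y w z))) =
        if (∀ i ∈ X, x i = y i) then 1 else 0 := by
    intro w
    simp only [mg_sub hXY]
    rw [hY (mg X x w) (mg X y w)]
    refine if_congr ?_ rfl rfl
    constructor
    · intro h i hi
      have := h i (hXY hi)
      unfold mg at this
      rwa [if_pos hi, if_pos hi] at this
    · intro h i _
      unfold mg
      by_cases hi : i ∈ X
      · rw [if_pos hi, if_pos hi]
        exact h i hi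
      · rw [if_neg hi, if_neg hi]
  simp only [e2] at e1
  rw [Finset.sum_const, Finset.card_univ, nsmul_eq_mul] at e1
  exact (mul_left_cancel₀ hc e1).symm

end Pool.Agent.N94.QX
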